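import Mathlib

/-!
Hadamard's three circles theorem and the growth of transcendental entire functions.
-/

set_option autoImplicit false

open Filter Topology Metric Set

namespace Pool.Agent.R237.BW

/-- Hadamard's three circles theorem. -/
theorem three_circles {G : ℂ → ℂ} (hG : Differentiable ℂ G) {t0 t1 t : ℝ} (h01 : t0 < t1)
    (ht0 : t0 ≤ t) (ht1 : t ≤ t1) {a b : ℝ} (ha : ∀ z : ℂ, ‖z‖ = Real.exp t0 → ‖G z‖ ≤ Real.exp a)
    (hb : ∀ z : ℂ, ‖z‖ = Real.exp t1 → ‖G z‖ ≤ Real.exp b) {z : ℂ} (hz : ‖z‖ = Real.exp t) :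
    ‖G z‖ ≤ Real.exp ((1 - (t - t0) / (t1 - t0)) * a + (t - t0) / (t1 - t0) * b) := by
  have hz0 : z ≠ 0 := by
    intro h
    rw [h, norm_zero] at hz
    exact (Real.exp_pos t).ne hz
  have hn : ∀ w : ℂ, ‖Complex.exp w‖ = Real.exp w.re := Complex.norm_exp
  have h := Complex.HadamardThreeLines.norm_le_interp_of_mem_verticalClosedStrip'
    (f := fun w => G (Complex.exp w)) (z := Complex.log z) (a := Real.exp a) (b := Real.exp b) h01
    (by
      have : (Complex.log z).re = t := by rw [Complex.log_re, hz, Real.log_exp]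
      simp only [Complex.HadamardThreeLines.verticalClosedStrip, mem_preimage, mem_Icc, this]
      exact ⟨ht0, ht1⟩)
    ((hG.comp Complex.differentiable_exp).diffContOnCl)
    (by
      have hK : IsCompact (closedBall (0 : ℂ) (Real.exp t1)) := isCompact_closedBall _ _
      obtain ⟨C, hC⟩ := hK.exists_bound_of_continuousOn hG.continuous.continuousOn
      refine ⟨C, ?_⟩
      rintro _ ⟨w, hw, rfl⟩
      simp only [Complex.HadamardThreeLines.verticalClosedStrip, mem_preimage, mem_Icc] at hw
      apply hC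
      rw [mem_closedBall_zero_iff, hn]
      exact Real.exp_le_exp.2 hw.2)
    (by
      intro w hw
      apply ha
      rw [hn]
      simp only [mem_preimage, mem_singleton_iff] at hw
      rw [hw])
    (by
      intro w hw
      apply hb
      rw [hn]
      simp only [mem_preimage, mem_singleton_iff] at hw
      rw [hw])
  have h2 : (Complex.log z).re = t := by rw [Complex.log_re, hz, Real.log_exp]
  simp only [h2, Complex.exp_log hz0] at h
  rw [← Real.exp_mul, ← Real.exp_mul, ← Real.exp_add] at h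
  convert h using 2
  ring

/-- a transcendental entire function grows faster than any power -/
theorem growth {G : ℂ → ℂ} (hG : Differentiable ℂ G)
    (hnp : ¬ ∃ p : Polynomial ℂ, ∀ z, G z = p.eval z) (A : ℕ) :
    ∀ᶠ r : ℝ in atTop, ∃ z : ℂ, ‖z‖ = r ∧ r ^ A < ‖G z‖ := by
  by_contra hcon
  rw [Filter.not_eventually] at hcon
  have hfr : ∃ᶠ r : ℝ in atTop, 0 < r ∧ ∀ z : ℂ, ‖z‖ = r → ‖G z‖ ≤ r ^ A := by
    refine (hcon.and_eventually (eventually_gt_atTop 0)).mono ?_
    rintro r ⟨h, hr⟩
    push Not at h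
    exact ⟨hr, h⟩
  have hz : ∀ n : ℕ, A < n → iteratedDeriv n G 0 = 0 := by
    intro n hn
    by_contra hne
    have hpos : 0 < ‖iteratedDeriv n G 0‖ := norm_pos_iff.2 hne
    have hev : ∀ᶠ r : ℝ in atTop, (n.factorial : ℝ) / ‖iteratedDeriv n G 0‖ < r :=
      eventually_gt_atTop _
    obtain ⟨r, ⟨hr, hb⟩, h1, h2⟩ := (hfr.and_eventually (hev.and (eventually_ge_atTop 1))).exists
    have h3 := Complex.norm_iteratedDeriv_le_of_forall_mem_sphere_norm_le (c := 0) (R := r)
      (C := r ^ A) (f := G) n hr hG.diffContOnCl (by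
        intro z hz
        exact hb z (by simpa using hz))
    have h4 : r ^ A * r ≤ r ^ n := by
      rw [← pow_succ]
      exact pow_le_pow_right₀ h2 hn
    have h5 : (n.factorial : ℝ) * r ^ A / r ^ n ≤ n.factorial / r := by
      rw [div_le_div_iff₀ (by positivity) hr]
      have : (0 : ℝ) < n.factorial := by positivity
      nlinarith
    have h6 : ‖iteratedDeriv n G 0‖ ≤ n.factorial / r := h3.trans h5
    rw [div_lt_iff₀ hpos] at h1
    rw [le_div_iff₀ hr] at h6
    linarith
  apply hnp
  refine ⟨∑ n ∈ Finset.range (A + 1),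
    Polynomial.C ((n.factorial : ℂ)⁻¹ * iteratedDeriv n G 0) * Polynomial.X ^ n, fun z => ?_⟩
  have h := Complex.hasSum_taylorSeries_of_entire hG 0 z
  have h2 : HasSum (fun n : ℕ => (n.factorial : ℂ)⁻¹ • (z - 0) ^ n • iteratedDeriv n G 0)
      (∑ n ∈ Finset.range (A + 1), (n.factorial : ℂ)⁻¹ • (z - 0) ^ n • iteratedDeriv n G 0) := by
    apply hasSum_sum_of_ne_finset_zero
    intro n hn
    rw [Finset.mem_range, not_lt] at hn
    rw [hz n (by omega)]
    simp
  rw [h.unique h2, Polynomial.eval_finsetSum]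
  apply Finset.sum_congr rfl
  intro n _
  simp
  ring

end Pool.Agent.R237.BW
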