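import Mathlib
import Pool.Agent.R237.BW.Chain
import Pool.Agent.R237.BW.Circ

/-!
Baker wandering domains of entire functions: the components tend to infinity.
-/

set_option autoImplicit false

open Filter Topology Metric Set

namespace Pool.Agent.R237.BW

/-- A sequence of pairwise disjoint domains which is mapped forward by the transcendental entire
function `f`, the first of which surrounds `0`. -/
structure Core (f : ℂ → ℂ) (W : ℕ → Set ℂ) (z0 : ℂ) (O : Set ℂ) : Prop where
  df : Differentiable ℂ f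
  np : ¬ ∃ p : Polynomial ℂ, ∀ z, f z = p.eval z
  op : ∀ n, IsOpen (W n)
  pc : ∀ n, IsPreconnected (W n)
  mp : ∀ n, MapsTo f (W n) (W (n + 1))
  dj : ∀ m n, m ≠ n → Disjoint (W m) (W n)
  z0m : z0 ∈ W 0
  esc : Tendsto (fun n => ‖f^[n] z0‖) atTop atTop
  oO : IsOpen O
  bO : Bornology.IsBounded O
  O0 : (0 : ℂ) ∈ O
  fO : frontier O ⊆ W 0
  nO : ¬ ∀ R : ℝ, ∀ᶠ n in atTop, ∀ z ∈ O, R < ‖f^[n] z‖

theorem isOpenMap_of_not_const {f : ℂ → ℂ} (hf : Differentiable ℂ f)
    (hn : ¬ ∃ c, ∀ z, f z = c) : IsOpenMap f := by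
  intro s hs
  rcases (hf.differentiableOn (s := univ) |>.analyticOnNhd isOpen_univ).is_constant_or_isOpen
    isPreconnected_univ with h | h
  · obtain ⟨w, hw⟩ := h
    exact absurd ⟨w, fun z => hw z (mem_univ z)⟩ hn
  · exact h s (subset_univ s) hs

theorem isOpenMap_iterate {f : ℂ → ℂ} (hf : IsOpenMap f) (n : ℕ) : IsOpenMap f^[n] := by
  induction n with
  | zero => exact IsOpenMap.id
  | succ n ih => rw [Function.iterate_succ]; exact ih.comp hf

/-- the frontier of the image of a bounded open set -/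
theorem frontier_image {g : ℂ → ℂ} (hc : Continuous g) (ho : IsOpenMap g) {O : Set ℂ}
    (hO : IsOpen O) (hb : Bornology.IsBounded O) : frontier (g '' O) ⊆ g '' frontier O := by
  have hK : IsCompact (closure O) := hb.isCompact_closure
  have h1 : closure (g '' O) ⊆ g '' closure O :=
    closure_minimal (image_mono subset_closure) (hK.image hc).isClosed
  rintro y ⟨hy1, hy2⟩
  rw [(ho O hO).interior_eq] at hy2
  obtain ⟨x, hx, rfl⟩ := h1 hy1
  refine ⟨x, ⟨hx, fun h => hy2 ?_⟩, rfl⟩
  rw [hO.interior_eq] at h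
  exact ⟨x, h, rfl⟩

/-- a preconnected set which does not meet the frontier -/
theorem subset_or {S T : Set ℂ} (hS : IsPreconnected S) (h : Disjoint S (frontier T)) {x : ℂ}
    (hx : x ∈ S) (hxT : x ∈ T) : S ⊆ T := by
  by_contra hcon
  obtain ⟨y, hy, hyT⟩ := not_subset.1 hcon
  have hin : ∀ z ∈ S, z ∈ closure T → z ∈ interior T := by
    intro z hz hzc
    by_contra hni
    exact h.le_bot ⟨hz, hzc, hni⟩
  obtain ⟨w, _, hw1, hw2⟩ := hS (interior T) (closure T)ᶜ isOpen_interior
    isClosed_closure.isOpen_compl (fun z hz => by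
      by_cases hzc : z ∈ closure T
      · exact Or.inl (hin z hz hzc)
      · exact Or.inr hzc) ⟨x, hx, hin x hx (subset_closure hxT)⟩
    ⟨y, hy, fun hyc => hyT (interior_subset (hin y hy hyc))⟩
  exact hw2 (interior_subset_closure hw1)

namespace Core

variable {f : ℂ → ℂ} {W : ℕ → Set ℂ} {z0 : ℂ} {O : Set ℂ}

theorem mpn (h : Core f W z0 O) (n k : ℕ) : MapsTo f^[k] (W n) (W (n + k)) := by
  induction k with
  | zero => exact mapsTo_id _
  | succ k ih =>
    rw [Function.iterate_succ']
    exact (h.mp (n + k)).comp ih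

theorem om (h : Core f W z0 O) : IsOpenMap f := by
  apply isOpenMap_of_not_const h.df
  rintro ⟨c, hc⟩
  exact h.np ⟨Polynomial.C c, fun z => by rw [hc, Polynomial.eval_C]⟩

theorem K0c (h : Core f W z0 O) : IsCompact (frontier O) :=
  h.bO.isCompact_closure.of_isClosed_subset isClosed_frontier frontier_subset_closure

theorem K0n (h : Core f W z0 O) : (frontier O).Nonempty := by
  apply nonempty_frontier_iff.2 ⟨⟨0, h.O0⟩, ?_⟩
  intro hu
  have := h.bO
  rw [hu] at this
  exact (NormedSpace.unbounded_univ ℝ ℂ) this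

/-- the iterates tend to infinity uniformly on compact subsets -/
theorem unif (h : Core f W z0 O) {K : Set ℂ} (hK : IsCompact K) (hKW : K ⊆ W 0) (R : ℝ) :
    ∀ᶠ n in atTop, ∀ z ∈ K, R < ‖f^[n] z‖ := by
  set b : ℂ := f z0 with hb
  have hb1 : b ∈ W 1 := h.mp 0 h.z0m
  have hne : b - z0 ≠ 0 := by
    intro h2
    rw [sub_eq_zero] at h2
    exact (h.dj 0 1 (by norm_num)).le_bot ⟨h.z0m, h2 ▸ hb1⟩
  have hpos : 0 < ‖b - z0‖ := norm_pos_iff.2 hne
  obtain ⟨B, hB⟩ := schottky (h.op 0) (h.pc 0) (K := insert z0 K) (hK.insert z0)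
    (by
      rintro x (rfl | hx)
      · exact h.z0m
      · exact hKW hx) ((R + ‖z0‖) / ‖b - z0‖)
  filter_upwards [h.esc.eventually_gt_atTop (B * ‖b - z0‖ + ‖z0‖), eventually_ge_atTop 2] with n h1 h2
  intro z hz
  by_contra hcon
  push Not at hcon
  have h3 := hB (fun x => (f^[n] x - z0) / (b - z0))
    (((h.df.iterate n).differentiableOn.sub_const _).div_const _)
    (fun x hx h4 => by
      rw [div_eq_zero_iff, sub_eq_zero] at h4
      rcases h4 with h4 | h4
      · have h5 := h.mpn 0 n hx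
        rw [h4, zero_add] at h5
        exact (h.dj 0 n (by omega)).le_bot ⟨h.z0m, h5⟩
      · exact hne h4)
    (fun x hx h4 => by
      rw [div_eq_one_iff_eq hne, sub_left_inj] at h4
      have h5 := h.mpn 0 n hx
      rw [h4, zero_add] at h5
      exact (h.dj 1 n (by omega)).le_bot ⟨hb1, h5⟩)
    z (Or.inr hz) z0 (Or.inl rfl) (by
      simp only [norm_div]
      gcongr
      exact (norm_sub_le _ _).trans (by linarith))
  simp only [norm_div] at h3
  rw [div_le_iff₀ hpos] at h3
  have h6 : ‖f^[n] z0‖ ≤ ‖f^[n] z0 - z0‖ + ‖z0‖ := by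
    have := norm_add_le (f^[n] z0 - z0) z0
    rwa [sub_add_cancel] at this
  linarith

theorem fr (h : Core f W z0 O) (n : ℕ) : frontier (f^[n] '' O) ⊆ f^[n] '' frontier O :=
  frontier_image (h.df.continuous.iterate n) (isOpenMap_iterate h.om n) h.oO h.bO

theorem frW (h : Core f W z0 O) (n : ℕ) : frontier (f^[n] '' O) ⊆ W n := by
  intro x hx
  obtain ⟨y, hy, rfl⟩ := h.fr n hx
  have := h.mpn 0 n (h.fO hy)
  rwa [zero_add] at this

/-- the maximum principle -/
theorem maxp (h : Core f W z0 O) {G : ℂ → ℂ} (hG : Differentiable ℂ G) {C : ℝ}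
    (hC : ∀ z ∈ frontier O, ‖G z‖ ≤ C) {z : ℂ} (hz : z ∈ O) : ‖G z‖ ≤ C :=
  Complex.norm_le_of_forall_mem_frontier_norm_le h.bO hG.diffContOnCl hC (subset_closure hz)

theorem ball_dich (h : Core f W z0 O) {n : ℕ} {r : ℝ}
    (hn : ∀ z ∈ frontier O, r < ‖f^[n] z‖) {x : ℂ} (hx : ‖x‖ ≤ r) (hxO : x ∈ f^[n] '' O) :
    closedBall 0 r ⊆ f^[n] '' O := by
  refine subset_or (convex_closedBall (0:ℂ) r).isPreconnected ?_ (x := x)
    (by rwa [mem_closedBall_zero_iff]) hxO
  rw [Set.disjoint_left]
  intro y hy hyf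
  obtain ⟨w, hw, rfl⟩ := h.fr n hyf
  rw [mem_closedBall_zero_iff] at hy
  exact absurd (hn w hw) (not_lt.2 hy)

/-- the images of `O` exhaust the plane -/
theorem good (h : Core f W z0 O) (R : ℝ) : ∀ᶠ n in atTop, closedBall 0 R ⊆ f^[n] '' O := by
  set R1 := max R ‖f 0‖ with hR1
  have hR0 : 0 ≤ R1 := (norm_nonneg _).trans (le_max_right _ _)
  obtain ⟨n0, hn0⟩ := eventually_atTop.1 (h.unif h.K0c h.fO R1)
  -- one good stage
  have hone : ∃ n ≥ n0, closedBall 0 R1 ⊆ f^[n] '' O := by
    by_contra hcon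
    push Not at hcon
    have hbig : ∀ n ≥ n0, ∀ z ∈ O, R1 < ‖f^[n] z‖ := by
      intro n hn z hz
      by_contra h2
      push Not at h2
      exact hcon n hn (h.ball_dich (hn0 n hn) h2 ⟨z, hz, rfl⟩)
    apply h.nO
    intro R'
    have hR2 : 0 < max R' 1 := lt_of_lt_of_le one_pos (le_max_right _ _)
    filter_upwards [h.unif h.K0c h.fO (max R' 1 + 1), eventually_ge_atTop n0] with n h1 h2
    intro z hz
    have hne : ∀ x ∈ closure O, f^[n] x ≠ 0 := by
      intro x hx h0
      rw [closure_eq_self_union_frontier] at hx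
      rcases hx with hx | hx
      · have := hbig n h2 x hx
        rw [h0, norm_zero] at this
        linarith
      · have := hn0 n h2 x hx
        rw [h0, norm_zero] at this
        linarith
    have h3 := Complex.norm_le_of_forall_mem_frontier_norm_le (f := fun x => (f^[n] x)⁻¹)
      (U := O) (C := (max R' 1 + 1)⁻¹) h.bO (by
        apply DiffContOnCl.inv
        · exact (h.df.iterate n).diffContOnCl
        · exact hne) (by
        intro x hx
        rw [norm_inv]
        exact inv_anti₀ (by linarith) (h1 x hx).le) (subset_closure hz)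
    rw [norm_inv, inv_le_inv₀ (by
      rw [norm_pos_iff]; exact hne z (subset_closure hz)) (by linarith)] at h3
    have := le_max_left R' 1
    linarith
  obtain ⟨n1, hn1, hg⟩ := hone
  filter_upwards [eventually_ge_atTop n1] with n hn
  have hall : closedBall 0 R1 ⊆ f^[n] '' O := by
    induction n, hn using Nat.le_induction with
    | base => exact hg
    | succ n hn ih =>
      refine h.ball_dich (hn0 (n + 1) (by omega)) (x := f 0) (le_max_right _ _) ?_
      obtain ⟨o, ho, ho2⟩ := ih (mem_closedBall_self hR0)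
      refine ⟨o, ho, ?_⟩
      rw [Function.iterate_succ_apply', ho2]
  exact (closedBall_subset_closedBall (le_max_left _ _)).trans hall

/-- the domains tend to infinity -/
theorem far (h : Core f W z0 O) (R : ℝ) : ∀ᶠ n in atTop, ∀ z ∈ W n, R < ‖z‖ := by
  obtain ⟨n, hn⟩ := (h.good R).exists
  have hb : Bornology.IsBounded (f^[n] '' O) := by
    have : IsCompact (f^[n] '' closure O) :=
      h.bO.isCompact_closure.image (h.df.continuous.iterate n)
    exact this.isBounded.subset (image_mono subset_closure)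
  obtain ⟨C, hC⟩ := hb.subset_closedBall 0
  filter_upwards [h.esc.eventually_gt_atTop C, eventually_gt_atTop n] with m h1 h2
  intro z hz
  by_contra hcon
  push Not at hcon
  have hzO : z ∈ f^[n] '' O := hn (by rwa [mem_closedBall_zero_iff])
  have hsub : W m ⊆ f^[n] '' O := by
    refine subset_or (h.pc m) ?_ hz hzO
    exact (h.dj m n (by omega)).mono_right (h.frW n)
  have h3 : f^[m] z0 ∈ W m := by
    have := h.mpn 0 m h.z0m
    rwa [zero_add] at this
  have h4 := hC (hsub h3)
  rw [mem_closedBall_zero_iff] at h4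
  linarith

end Core

end Pool.Agent.R237.BW
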