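import Mathlib
import Pool.Agent.R237.BW.Esc

/-!
Baker wandering domains of entire functions: growth of the orbits and a first fat annulus.
-/

set_option autoImplicit false

open Filter Topology Metric Set

namespace Pool.Agent.R237.BW

/-- Growth data on a domain `W q`: a point `z3`, a constant `C` for Harnack's inequality. -/
structure Gro (f : ℂ → ℂ) (W : ℕ → Set ℂ) (O : Set ℂ) (q : ℕ) (z3 : ℂ) (C t1 : ℝ) : Prop where
  C1 : 1 ≤ C
  q1 : 1 ≤ q
  big : ∀ n ≥ q - 1, ∀ z ∈ W n, 2 < ‖z‖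
  good : ∀ n ≥ q - 1, closedBall 0 3 ⊆ f^[n] '' O
  z3m : z3 ∈ W q
  z3n : 3 < ‖z3‖
  t31 : Real.log ‖z3‖ < t1
  inn : ∀ w : ℂ, ‖w‖ ≤ Real.exp t1 → w ∈ f^[q] '' O
  h1 : ∀ k : ℕ, ∀ x ∈ frontier O, Real.log ‖f^[k] (f^[q] x)‖ ≤ C * Real.log ‖f^[k] z3‖
  h2 : ∀ k : ℕ, ∀ x ∈ frontier O, Real.log ‖f^[k] z3‖ ≤ C * Real.log ‖f^[k] (f^[q] x)‖

namespace Core

variable {f : ℂ → ℂ} {W : ℕ → Set ℂ} {z0 : ℂ} {O : Set ℂ}

theorem exists_gro (h : Core f W z0 O) : ∃ (q : ℕ) (z3 : ℂ) (C t1 : ℝ), Gro f W O q z3 C t1 := by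
  obtain ⟨m, hm⟩ := eventually_atTop.1 ((h.good 4).and (h.far 2))
  set q := m + 1 with hq
  set D := f^[q] '' O with hD
  have hDb : Bornology.IsBounded D := by
    have : IsCompact (f^[q] '' closure O) :=
      h.bO.isCompact_closure.image (h.df.continuous.iterate q)
    exact this.isBounded.subset (image_mono subset_closure)
  have h0D : (0 : ℂ) ∈ D := (hm q (by omega)).1 (mem_closedBall_self (by norm_num))
  have hDo : IsOpen D := isOpenMap_iterate h.om q O h.oO
  have hfc : IsCompact (frontier D) :=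
    hDb.isCompact_closure.of_isClosed_subset isClosed_frontier frontier_subset_closure
  have hfn : (frontier D).Nonempty := by
    apply nonempty_frontier_iff.2 ⟨⟨0, h0D⟩, ?_⟩
    intro hu
    rw [hu] at hDb
    exact (NormedSpace.unbounded_univ ℝ ℂ) hDb
  obtain ⟨zs, hzs, hmin⟩ := hfc.exists_isMinOn hfn continuous_norm.continuousOn
  have hzsD : zs ∉ D := fun hc => hzs.2 (by rwa [hDo.interior_eq])
  have hzs4 : 4 < ‖zs‖ := by
    by_contra hcon
    push Not at hcon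
    exact hzsD ((hm q (by omega)).1 (by rwa [mem_closedBall_zero_iff]))
  have hball : ball 0 ‖zs‖ ⊆ D := by
    refine subset_or (convex_ball (0:ℂ) _).isPreconnected ?_ (x := 0)
      (mem_ball_self (by linarith)) h0D
    rw [Set.disjoint_left]
    intro y hy hyf
    rw [mem_ball_zero_iff] at hy
    exact absurd (hmin hyf) (by simpa using hy)
  have hzsW : zs ∈ W q := h.frW q hzs
  -- the point `z3`
  obtain ⟨ε, hε, hεW⟩ := Metric.isOpen_iff.1 (h.op q) zs hzsW
  obtain ⟨s, hs0, hs1, hs2, hs3⟩ : ∃ s : ℝ, 0 < s ∧ s < 1 ∧ (1 - s) * ‖zs‖ < ε ∧ 3 < s * ‖zs‖ := by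
    have e1 : Tendsto (fun s : ℝ => (1 - s) * ‖zs‖) (𝓝[<] 1) (𝓝 ((1 - 1) * ‖zs‖)) := by
      apply Tendsto.mono_left _ nhdsWithin_le_nhds
      exact (tendsto_const_nhds.sub tendsto_id).mul_const _
    have e2 : Tendsto (fun s : ℝ => s * ‖zs‖) (𝓝[<] 1) (𝓝 (1 * ‖zs‖)) := by
      apply Tendsto.mono_left _ nhdsWithin_le_nhds
      exact tendsto_id.mul_const _
    have e3 : ∀ᶠ s : ℝ in 𝓝[<] 1, 0 < s :=
      (eventually_gt_nhds (by norm_num : (0:ℝ) < 1)).filter_mono nhdsWithin_le_nhds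
    have e4 := e1.eventually_lt_const (by simpa using hε : (1 - 1) * ‖zs‖ < ε)
    have e5 := e2.eventually_const_lt (by linarith : (3 : ℝ) < 1 * ‖zs‖)
    obtain ⟨s, ⟨h1, h2⟩, h3, h4⟩ := ((e3.and self_mem_nhdsWithin).and (e4.and e5)).exists
    exact ⟨s, h1, h2, h3, h4⟩
  set z3 : ℂ := s * zs with hz3
  have hn3 : ‖z3‖ = s * ‖zs‖ := by
    rw [hz3, norm_mul, Complex.norm_real, Real.norm_of_nonneg hs0.le]
  have hz3W : z3 ∈ W q := by
    apply hεW
    rw [mem_ball, dist_eq_norm]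
    have : z3 - zs = -((1 - s : ℝ) : ℂ) * zs := by rw [hz3]; push_cast; ring
    rw [this, norm_mul, norm_neg, Complex.norm_real, Real.norm_of_nonneg (by linarith)]
    exact hs2
  have hpos : 0 < ‖zs‖ := by linarith
  have hlt : ‖z3‖ < ‖zs‖ := by rw [hn3]; nlinarith
  -- Harnack
  set K : Set ℂ := insert z3 (f^[q] '' frontier O) with hK
  have hKc : IsCompact K := (h.K0c.image (h.df.continuous.iterate q)).insert z3
  have hKW : K ⊆ W q := by
    rintro x (rfl | ⟨y, hy, rfl⟩)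
    · exact hz3W
    · have := h.mpn 0 q (h.fO hy)
      rwa [zero_add] at this
  obtain ⟨C, hC1, hC⟩ := harnack (h.op q) (h.pc q) hKc hKW
  have hfar : ∀ k, ∀ x ∈ W q, 1 < ‖f^[k] x‖ := by
    intro k x hx
    have := (hm (q + k) (by omega)).2 _ (h.mpn q k hx)
    linarith
  refine ⟨q, z3, C, (Real.log ‖z3‖ + Real.log ‖zs‖) / 2, hC1, by omega, ?_, ?_, hz3W, ?_, ?_, ?_,
    ?_, ?_⟩
  · intro n hn z hz
    exact (hm n (by omega)).2 z hz
  · intro n hn
    exact (closedBall_subset_closedBall (by norm_num)).trans (hm n (by omega)).1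
  · rw [hn3]; exact hs3
  · have := Real.log_lt_log (by linarith) hlt
    linarith
  · intro w hw
    apply hball
    rw [mem_ball_zero_iff]
    refine lt_of_le_of_lt hw ?_
    have h1 := Real.log_lt_log (by linarith) hlt
    rw [← Real.lt_log_iff_exp_lt hpos]
    linarith
  · intro k x hx
    exact hC f^[k] (h.df.iterate k).differentiableOn (hfar k) z3 (Or.inl rfl) _
      (Or.inr ⟨x, hx, rfl⟩)
  · intro k x hx
    exact hC f^[k] (h.df.iterate k).differentiableOn (hfar k) _ (Or.inr ⟨x, hx, rfl⟩) z3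
      (Or.inl rfl)

variable {q : ℕ} {z3 : ℂ} {C t1 : ℝ}

theorem Lpos (h : Core f W z0 O) (g : Gro f W O q z3 C t1) (k : ℕ) : 0 < Real.log ‖f^[k] z3‖ := by
  apply Real.log_pos
  have := g.big (q + k) (by omega) _ (h.mpn q k g.z3m)
  linarith

theorem Ltop (h : Core f W z0 O) (g : Gro f W O q z3 C t1) :
    Tendsto (fun k => Real.log ‖f^[k] z3‖) atTop atTop := by
  apply Real.tendsto_log_atTop.comp
  rw [Filter.tendsto_atTop]
  intro R
  obtain ⟨n, hn⟩ := eventually_atTop.1 (h.far R)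
  filter_upwards [eventually_ge_atTop n] with k hk
  exact (hn (q + k) (by omega) _ (h.mpn q k g.z3m)).le

/-- the growth of the orbit -/
theorem Lgrow (h : Core f W z0 O) (g : Gro f W O q z3 C t1) (A : ℝ) :
    ∀ᶠ k in atTop, A * Real.log ‖f^[k] z3‖ ≤ Real.log ‖f^[k + 1] z3‖ := by
  have hC0 : 0 < C := lt_of_lt_of_le one_pos g.C1
  obtain ⟨N, hN⟩ := exists_nat_ge (A * (2 * C ^ 2))
  have hgr := growth h.df h.np N
  have hr : Tendsto (fun k => Real.exp (Real.log ‖f^[k] z3‖ / (2 * C))) atTop atTop := by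
    apply Real.tendsto_exp_atTop.comp
    exact (h.Ltop g).atTop_div_const (by positivity)
  filter_upwards [hr.eventually hgr] with k hk
  obtain ⟨z, hz, hz2⟩ := hk
  set L := Real.log ‖f^[k] z3‖ with hL
  have hLp : 0 < L := h.Lpos g k
  -- `z` is in the image of `O`
  have hlow : ∀ x ∈ frontier O, Real.exp (L / (2 * C)) < ‖f^[q + k] x‖ := by
    intro x hx
    have h1 := g.h2 k x hx
    rw [← Function.iterate_add_apply, add_comm k q] at h1
    have h2 : 0 < ‖f^[q + k] x‖ := by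
      have h3 := h.mpn 0 (q + k) (h.fO hx)
      rw [zero_add] at h3
      have := g.big (q + k) (by omega) _ h3
      linarith
    rw [← Real.lt_log_iff_exp_lt h2, div_lt_iff₀ (by positivity)]
    nlinarith
  have h0 : (0 : ℂ) ∈ f^[q + k] '' O :=
    g.good (q + k) (by omega) (mem_closedBall_self (by norm_num))
  have hzD : z ∈ f^[q + k] '' O :=
    h.ball_dich hlow (x := 0) (by rw [norm_zero]; positivity) h0
      (by rw [mem_closedBall_zero_iff]; exact hz.le)
  obtain ⟨o, ho, rfl⟩ := hzD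
  -- the maximum principle
  obtain ⟨x, hx, hxm⟩ := h.K0c.exists_isMaxOn h.K0n
    (((h.df.iterate (q + k + 1)).continuous.norm).continuousOn)
  have hmax := h.maxp (h.df.iterate (q + k + 1)) (C := ‖f^[q + k + 1] x‖) (fun z hz => hxm hz) ho
  rw [Function.iterate_succ_apply'] at hmax
  have h3 : Real.exp (L / (2 * C)) ^ N < ‖f^[q + k + 1] x‖ := lt_of_lt_of_le hz2 hmax
  have h4 := g.h1 (k + 1) x hx
  rw [← Function.iterate_add_apply, show k + 1 + q = q + k + 1 by ring] at h4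
  have h5 : N * (L / (2 * C)) < Real.log ‖f^[q + k + 1] x‖ := by
    rw [Real.lt_log_iff_exp_lt (lt_trans (by positivity) h3), Real.exp_nat_mul]
    exact h3
  have h6 : A * L ≤ (N * (L / (2 * C))) / C := by
    rw [le_div_iff₀ hC0, mul_div_assoc', le_div_iff₀ (by positivity)]
    nlinarith
  have h7 : (N * (L / (2 * C))) / C ≤ Real.log ‖f^[k + 1] z3‖ := by
    rw [div_le_iff₀ hC0]
    linarith
  exact h6.trans h7

/-- small growth on the disc of radius 3 -/
theorem small3 (h : Core f W z0 O) (g : Gro f W O q z3 C t1) (k : ℕ) {w : ℂ} (hw : ‖w‖ ≤ 3) :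
    ‖f^[k + 1] w‖ ≤ Real.exp (C * Real.log ‖f^[k] z3‖) := by
  obtain ⟨o, ho, rfl⟩ := g.good (q - 1) le_rfl (by rwa [mem_closedBall_zero_iff])
  rw [← Function.iterate_add_apply]
  refine h.maxp (h.df.iterate _) ?_ ho
  intro x hx
  have h1 := g.h1 k x hx
  have hq := g.q1
  rw [← Function.iterate_add_apply, show k + q = k + 1 + (q - 1) by omega] at h1
  have h2 : 0 < ‖f^[k + 1 + (q - 1)] x‖ := by
    have h3 := h.mpn 0 (k + 1 + (q - 1)) (h.fO hx)
    rw [zero_add] at h3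
    have := g.big _ (by omega) _ h3
    linarith
  rwa [Real.log_le_iff_le_exp h2] at h1

theorem small (h : Core f W z0 O) (g : Gro f W O q z3 C t1) {η : ℝ} (hη : 0 < η) :
    ∀ᶠ k in atTop, ∀ w : ℂ, ‖w‖ ≤ 3 → ‖f^[k] w‖ ≤ Real.exp (η * Real.log ‖f^[k] z3‖) := by
  obtain ⟨n, hn⟩ := eventually_atTop.1 (h.Lgrow g (C / η))
  filter_upwards [eventually_ge_atTop (n + 1)] with j hj w hw
  obtain ⟨k, rfl⟩ : ∃ k, j = k + 1 := ⟨j - 1, by omega⟩
  have hk := hn k (by omega)
  refine (h.small3 g k hw).trans (Real.exp_le_exp.2 ?_)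
  rw [div_mul_eq_mul_div, div_le_iff₀ hη] at hk
  linarith

end Core

end Pool.Agent.R237.BW
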