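import Mathlib
import Pool.Agent.R237.BW.Grow

/-!
Baker wandering domains of entire functions: fat annuli around orbits.
-/

set_option autoImplicit false

open Filter Topology Metric Set

namespace Pool.Agent.R237.BW

namespace Core

variable {f : ℂ → ℂ} {W : ℕ → Set ℂ} {z0 : ℂ} {O : Set ℂ} {q : ℕ} {z3 : ℂ} {C t1 : ℝ}

/-- first fat annuli -/
theorem first (h : Core f W z0 O) (g : Gro f W O q z3 C t1) : ∃ c0 : ℝ, 0 < c0 ∧ ∀ᶠ k in atTop,
    ∀ w : ℂ, (1 + c0 / 4) * Real.log ‖f^[k] z3‖ ≤ Real.log ‖w‖ →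
      Real.log ‖w‖ ≤ (1 + 3 * c0 / 4) * Real.log ‖f^[k] z3‖ → w ∈ W (q + k) := by
  set t4 : ℝ := Real.log 3 with ht4
  set t3 : ℝ := Real.log ‖z3‖ with ht3
  have h43 : t4 < t3 := Real.log_lt_log (by norm_num) g.z3n
  have h31 : t3 < t1 := g.t31
  set θ : ℝ := (t3 - t4) / (t1 - t4) with hθ
  have hθ0 : 0 < θ := div_pos (by linarith) (by linarith)
  have hθ1 : θ < 1 := by rw [hθ, div_lt_one (by linarith)]; linarith
  set c0 : ℝ := (1 - θ) / (2 * θ) with hc0
  have hc0p : 0 < c0 := div_pos (by linarith) (by positivity)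
  have hθc : θ * (1 + c0) = (1 + θ) / 2 := by rw [hc0]; field_simp; ring
  set K : Set ℂ := insert z3 (f^[q] '' frontier O) with hK
  have hKc : IsCompact K := (h.K0c.image (h.df.continuous.iterate q)).insert z3
  have hKW : K ⊆ W q := by
    rintro x (rfl | ⟨y, hy, rfl⟩)
    · exact g.z3m
    · have := h.mpn 0 q (h.fO hy)
      rwa [zero_add] at this
  obtain ⟨B, hB⟩ := schottky (h.op q) (h.pc q) hKc hKW 1
  refine ⟨c0, hc0p, ?_⟩
  filter_upwards [h.small g (η := 1 / 4) (by norm_num),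
    ((h.Ltop g).const_mul_atTop (by positivity : 0 < c0 / 4)).eventually_gt_atTop (Real.log (max B 1))]
    with k hk1 hk2
  set L := Real.log ‖f^[k] z3‖ with hL
  have hLp : 0 < L := h.Lpos g k
  have hz3p : 0 < ‖f^[k] z3‖ := by
    have := g.big (q + k) (by omega) _ (h.mpn q k g.z3m)
    linarith
  -- a large value on `K`
  have hlarge : ∃ x ∈ frontier O, Real.exp ((1 + c0) * L) < ‖f^[k] (f^[q] x)‖ := by
    by_contra hcon
    push Not at hcon
    have hb : ∀ z : ℂ, ‖z‖ = Real.exp t1 → ‖f^[k] z‖ ≤ Real.exp ((1 + c0) * L) := by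
      intro z hz
      obtain ⟨o, ho, rfl⟩ := g.inn z hz.le
      rw [← Function.iterate_add_apply]
      refine h.maxp (h.df.iterate _) ?_ ho
      intro x hx
      rw [Function.iterate_add_apply]
      exact hcon x hx
    have ha : ∀ z : ℂ, ‖z‖ = Real.exp t4 → ‖f^[k] z‖ ≤ Real.exp (1 / 4 * L) := by
      intro z hz
      apply hk1
      rw [hz, ht4, Real.exp_log (by norm_num)]
    have h3 := three_circles (h.df.iterate k) (by linarith : t4 < t1) h43.le h31.le ha hb
      (z := z3) (by rw [ht3, Real.exp_log (by have := g.z3n; linarith)])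
    rw [← Real.log_le_iff_le_exp hz3p, ← hθ] at h3
    have h4 : (1 - θ) * (1 / 4 * L) + θ * ((1 + c0) * L) = ((1 - θ) / 4 + θ * (1 + c0)) * L := by ring
    rw [h4, hθc] at h3
    nlinarith
  obtain ⟨x, hx, hxl⟩ := hlarge
  intro w hw1 hw2
  by_contra hcon
  have hwp : 0 < Real.log ‖w‖ := lt_of_lt_of_le (by positivity) hw1
  have hw0 : w ≠ 0 := by
    rintro rfl
    rw [norm_zero, Real.log_zero] at hwp
    exact lt_irrefl _ hwp
  have hwn : 0 < ‖w‖ := norm_pos_iff.2 hw0
  have h3 := hB (fun y => f^[k] y / w) ((h.df.iterate k).differentiableOn.div_const _)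
    (fun y hy h0 => by
      rw [div_eq_zero_iff] at h0
      rcases h0 with h0 | h0
      · have := g.big (q + k) (by omega) _ (h.mpn q k hy)
        rw [h0, norm_zero] at this
        linarith
      · exact hw0 h0)
    (fun y hy h0 => by
      rw [div_eq_one_iff_eq hw0] at h0
      apply hcon
      rw [← h0]
      exact h.mpn q k hy)
    z3 (Or.inl rfl) _ (Or.inr ⟨x, hx, rfl⟩) (by
      simp only [norm_div]
      rw [div_le_one hwn, ← Real.log_le_log_iff hz3p hwn]
      refine le_trans ?_ hw1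
      nlinarith)
  simp only [norm_div] at h3
  rw [div_le_iff₀ hwn] at h3
  have h4 : Real.exp ((1 + c0) * L) < max B 1 * ‖w‖ :=
    lt_of_lt_of_le (lt_of_lt_of_le hxl h3) (by gcongr; exact le_max_left _ _)
  have hm : 0 < max B 1 := lt_of_lt_of_le one_pos (le_max_right _ _)
  rw [← Real.lt_log_iff_exp_lt (by positivity), Real.log_mul hm.ne' hwn.ne'] at h4
  nlinarith

theorem exists_annuli (h : Core f W z0 O) : ∃ (s : ℕ) (ζ : ℂ) (κ : ℝ), ζ ∈ W s ∧ 0 < κ ∧ κ ≤ 1 / 64 ∧
    (∀ j : ℕ, ∀ w : ℂ, |Real.log ‖w‖ - Real.log ‖f^[j] ζ‖| ≤ 4 * κ * Real.log ‖f^[j] ζ‖ →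
      w ∈ W (s + j)) ∧
    (∀ n ≥ s, ∀ z ∈ W n, 2 < ‖z‖) ∧
    (∀ A : ℝ, ∀ᶠ j in atTop, A * Real.log ‖f^[j] ζ‖ ≤ Real.log ‖f^[j + 1] ζ‖) := by
  obtain ⟨q, z3, C, t1, g⟩ := h.exists_gro
  obtain ⟨c0, hc0, hfirst⟩ := h.first g
  set δ : ℝ := (c0 / 4) / (1 + c0 / 2) with hδ
  have hδ0 : 0 < δ := by positivity
  have hδ1 : δ < 1 / 2 := by rw [hδ, div_lt_iff₀ (by positivity)]; linarith
  -- choice of the stage
  obtain ⟨k, hk1, hk2, hk3⟩ := (hfirst.and (((h.Ltop g).eventually_ge_atTop
    (32 * Real.pi / δ ^ 2)).and ((h.Ltop g).eventually_ge_atTop 4))).exists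
  set Lk := Real.log ‖f^[k] z3‖ with hLk
  set ℓ : ℝ := (1 + c0 / 2) * Lk with hℓ
  have hLk0 : 0 < Lk := h.Lpos g k
  have hℓL : Lk ≤ ℓ := by rw [hℓ]; nlinarith
  have hℓ0 : 0 < ℓ := by linarith
  have hδℓ : δ * ℓ = c0 / 4 * Lk := by rw [hδ, hℓ]; field_simp
  have hπ := Real.pi_pos
  have hδ2 : 32 * Real.pi ≤ δ ^ 2 * ℓ := by
    rw [div_le_iff₀ (by positivity)] at hk2
    nlinarith
  set s := q + k with hs
  have hA : ∀ w : ℂ, |Real.log ‖w‖ - ℓ| ≤ δ * ℓ → w ∈ W s := by
    intro w hw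
    rw [abs_le, hδℓ, hℓ] at hw
    apply hk1 w <;> nlinarith [hw.1, hw.2]
  have hbig : ∀ n ≥ s, ∀ z ∈ W n, 2 < ‖z‖ := fun n hn => g.big n (by omega)
  set ζ : ℂ := (Real.exp ℓ : ℂ) with hζ
  have hζn : ‖ζ‖ = Real.exp ℓ := by
    rw [hζ, Complex.norm_real, Real.norm_of_nonneg (Real.exp_pos _).le]
  have hζW : ζ ∈ W s := by
    apply hA
    rw [hζn, Real.log_exp, sub_self, abs_zero]
    positivity
  set Λ : ℕ → ℝ := fun j => Real.log ‖f^[j] ζ‖ with hΛ
  have hfar : ∀ j, ∀ x ∈ W s, 2 < ‖f^[j] x‖ := fun j x hx => hbig (s + j) (by omega) _ (h.mpn s j hx)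
  have hΛ0 : ∀ j, 0 < Λ j := fun j => Real.log_pos (by have := hfar j ζ hζW; linarith)
  -- comparison with the orbit of `z3`
  have hzk : f^[k] z3 ∈ W s := h.mpn q k g.z3m
  obtain ⟨C', hC'1, hC'⟩ := harnack (h.op s) (h.pc s) (K := {ζ, f^[k] z3})
    ((Set.toFinite _).isCompact) (by
      rintro x (rfl | rfl)
      · exact hζW
      · exact hzk)
  have hcmp1 : ∀ j, Λ j ≤ C' * Real.log ‖f^[j + k] z3‖ := by
    intro j
    rw [Function.iterate_add_apply]
    exact hC' f^[j] (h.df.iterate j).differentiableOn (fun x hx => by have := hfar j x hx; linarith)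
      _ (Or.inr rfl) _ (Or.inl rfl)
  have hcmp2 : ∀ j, Real.log ‖f^[j + k] z3‖ ≤ C' * Λ j := by
    intro j
    rw [Function.iterate_add_apply]
    exact hC' f^[j] (h.df.iterate j).differentiableOn (fun x hx => by have := hfar j x hx; linarith)
      _ (Or.inl rfl) _ (Or.inr rfl)
  have hC'0 : 0 < C' := lt_of_lt_of_le one_pos hC'1
  have hratio : ∀ A : ℝ, ∀ᶠ j in atTop, A * Λ j ≤ Λ (j + 1) := by
    intro A
    have h1 := (tendsto_add_atTop_nat k).eventually (h.Lgrow g (|A| * C' ^ 2))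
    filter_upwards [h1] with j hj
    have h2 := hcmp1 j
    have h3 := hcmp2 (j + 1)
    rw [show j + 1 + k = j + k + 1 by ring] at h3
    have h4 : |A| * C' * Λ j ≤ |A| * C' * (C' * Real.log ‖f^[j + k] z3‖) := by gcongr
    have h5 : C' * (|A| * Λ j) ≤ C' * Λ (j + 1) := by nlinarith
    have h6 := le_of_mul_le_mul_left h5 hC'0
    have h7 : A * Λ j ≤ |A| * Λ j := by gcongr; exacts [(hΛ0 j).le, le_abs_self A]
    linarith
  -- monotonicity of the growth of `z3`
  have hmono : ∀ᶠ j in atTop, Real.log ‖f^[j] z3‖ ≤ Real.log ‖f^[j + k] z3‖ := by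
    obtain ⟨n, hn⟩ := eventually_atTop.1 (h.Lgrow g 1)
    filter_upwards [eventually_ge_atTop n] with j hj
    have : ∀ i, Real.log ‖f^[j] z3‖ ≤ Real.log ‖f^[j + i] z3‖ := by
      intro i
      induction i with
      | zero => simp
      | succ i ih =>
        have := hn (j + i) (by omega)
        rw [one_mul] at this
        exact ih.trans this
    exact this k
  have hsmall : ∀ η : ℝ, 0 < η → ∀ᶠ j in atTop, ∀ w : ℂ, ‖w‖ ≤ 3 →
      ‖f^[j] w‖ ≤ Real.exp (η * Λ j) := by
    intro η hη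
    filter_upwards [h.small g (η := η / C') (by positivity), hmono] with j hj1 hj2 w hw
    refine (hj1 w hw).trans (Real.exp_le_exp.2 ?_)
    have h1 : Real.log ‖f^[j] z3‖ ≤ C' * Λ j := hj2.trans (hcmp2 j)
    rw [div_mul_eq_mul_div, div_le_iff₀ hC'0]
    nlinarith
  -- Harnack on the central circle
  have hcirc : ∀ j : ℕ, ∀ w : ℂ, ‖w‖ = Real.exp ℓ → ‖f^[j] w‖ ≤ Real.exp ((1 + δ / 8) * Λ j) := by
    intro j w hw
    have hr : 0 < δ * ℓ := by positivity
    have hmem : ∀ x ∈ ball (ℓ : ℂ) (δ * ℓ), Complex.exp x ∈ W s := by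
      intro x hx
      apply hA
      rw [Complex.norm_exp, Real.log_exp]
      rw [mem_ball, dist_eq_norm] at hx
      have := Complex.abs_re_le_norm (x - ℓ)
      rw [Complex.sub_re, Complex.ofReal_re] at this
      linarith
    have hw0 : w ≠ 0 := by
      rintro rfl
      rw [norm_zero] at hw
      exact (Real.exp_pos ℓ).ne hw
    have hlog : dist (Complex.log w) (ℓ : ℂ) ≤ Real.pi / (δ * ℓ) * (δ * ℓ) := by
      rw [div_mul_cancel₀ _ hr.ne', dist_eq_norm]
      have : Complex.log w - ℓ = Complex.arg w * Complex.I := by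
        apply Complex.ext
        · simp [Complex.log_re, hw]
        · simp [Complex.log_im]
      rw [this, norm_mul, Complex.norm_I, mul_one, Complex.norm_real]
      exact Complex.abs_arg_le_pi w
    have ht : Real.pi / (δ * ℓ) ≤ δ / 32 := by
      rw [div_le_iff₀ hr]
      nlinarith
    have hH := Pool.Agent.W723.MC.harnack_half (g := fun x => f^[j] (Complex.exp x)) hr
      (((h.df.iterate j).comp Complex.differentiable_exp).differentiableOn)
      (fun x hx => by have := hfar j _ (hmem x hx); linarith) (z := Complex.log w)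
      (t := Real.pi / (δ * ℓ)) (by positivity) hlog (by linarith)
    simp only [Complex.exp_log hw0] at hH
    have he : Complex.exp (ℓ : ℂ) = ζ := by rw [hζ, Complex.ofReal_exp]
    rw [he] at hH
    have hwp : 0 < ‖f^[j] w‖ := by
      have : w ∈ W s := hA w (by rw [hw, Real.log_exp, sub_self, abs_zero]; positivity)
      have := hfar j w this
      linarith
    rw [← Real.log_le_iff_le_exp hwp]
    refine hH.trans ?_
    have h2 : 2 * (Real.pi / (δ * ℓ)) / (1 - Real.pi / (δ * ℓ)) ≤ δ / 8 := by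
      rw [div_le_iff₀ (by linarith)]
      nlinarith
    have := hΛ0 j
    simp only [hΛ] at this ⊢
    gcongr
  set t0 : ℝ := Real.log 3 with ht0
  have ht0p : 0 < t0 := Real.log_pos (by norm_num)
  have ht02 : t0 < 2 := by
    rw [ht0]
    have := Real.log_lt_sub_one_of_pos (x := 3) (by norm_num) (by norm_num)
    linarith
  have hδℓ2 : 16 * Real.pi ≤ δ * ℓ := by nlinarith
  have hπ3 := Real.pi_gt_three
  -- Schottky
  set xi : ℂ := (Real.exp (ℓ * (1 - δ / 2)) : ℂ) with hxi
  have hxin : ‖xi‖ = Real.exp (ℓ * (1 - δ / 2)) := by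
    rw [hxi, Complex.norm_real, Real.norm_of_nonneg (Real.exp_pos _).le]
  set K : Set ℂ := insert xi (sphere (0 : ℂ) (Real.exp (ℓ * (1 + δ / 2)))) with hK
  have hKc : IsCompact K := (isCompact_sphere _ _).insert xi
  have hKW : K ⊆ W s := by
    rintro x (rfl | hx)
    · apply hA
      rw [hxin, Real.log_exp, show ℓ * (1 - δ / 2) - ℓ = -(δ * ℓ / 2) by ring, abs_neg,
        abs_of_pos (by positivity)]
      nlinarith
    · rw [mem_sphere_zero_iff_norm] at hx
      apply hA
      rw [hx, Real.log_exp, show ℓ * (1 + δ / 2) - ℓ = (δ * ℓ / 2) by ring,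
        abs_of_pos (by positivity)]
      nlinarith
  obtain ⟨B, hB⟩ := schottky (h.op s) (h.pc s) hKc hKW 1
  have hΛtop : Tendsto Λ atTop atTop := by
    apply Real.tendsto_log_atTop.comp
    rw [Filter.tendsto_atTop]
    intro R
    obtain ⟨n, hn⟩ := eventually_atTop.1 (h.far R)
    filter_upwards [eventually_ge_atTop n] with j hj
    exact (hn (s + j) (by omega) _ (h.mpn s j hζW)).le
  have hall : ∀ᶠ j in atTop, ∀ w : ℂ, |Real.log ‖w‖ - Λ j| ≤ δ / 8 * Λ j → w ∈ W (s + j) := by
    filter_upwards [hsmall (δ / 8) (by positivity), (hΛtop.const_mul_atTop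
      (by positivity : 0 < δ / 8)).eventually_gt_atTop (Real.log (max B 1))] with j hj1 hj2
    have hΛj := hΛ0 j
    -- a large value on the outer circle
    have hlarge : ∃ x : ℂ, ‖x‖ = Real.exp (ℓ * (1 + δ / 2)) ∧
        Real.exp ((1 + δ / 4) * Λ j) < ‖f^[j] x‖ := by
      by_contra hcon
      push Not at hcon
      have h3 := three_circles (h.df.iterate j) (t0 := t0) (t1 := ℓ * (1 + δ / 2)) (t := ℓ)
        (by nlinarith) (by linarith) (by nlinarith)
        (fun z hz => hj1 z (by rw [hz, ht0, Real.exp_log (by norm_num)])) hcon (z := ζ) hζn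
      rw [← Real.log_le_iff_le_exp (by have := hfar j ζ hζW; linarith)] at h3
      set σ : ℝ := (ℓ - t0) / (ℓ * (1 + δ / 2) - t0) with hσ
      have hden : 0 < ℓ * (1 + δ / 2) - t0 := by nlinarith
      have hσ0 : 0 ≤ σ := div_nonneg (by linarith) hden.le
      have hσ1 : σ * (1 + δ / 2) ≤ 1 := by
        rw [hσ, div_mul_eq_mul_div, div_le_one hden]
        nlinarith
      have h4 : Λ j ≤ ((1 - σ) * (δ / 8) + σ * (1 + δ / 4)) * Λ j := by
        refine h3.trans (le_of_eq ?_)
        ring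
      have h5 : (1 - σ) * (δ / 8) + σ * (1 + δ / 4) < 1 := by
        have h6 : σ ≤ 1 - δ / 4 := by
          by_contra hc
          push Not at hc
          nlinarith
        nlinarith
      nlinarith
    -- small values on the inner circle
    have hin : ‖f^[j] xi‖ ≤ Real.exp ((1 - δ / 8) * Λ j) := by
      have h3 := three_circles (h.df.iterate j) (t0 := t0) (t1 := ℓ) (t := ℓ * (1 - δ / 2))
        (by linarith) (by nlinarith) (by nlinarith)
        (fun z hz => hj1 z (by rw [hz, ht0, Real.exp_log (by norm_num)])) (hcirc j) (z := xi) hxin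
      refine h3.trans (Real.exp_le_exp.2 ?_)
      set σ : ℝ := (ℓ * (1 - δ / 2) - t0) / (ℓ - t0) with hσ
      have hden : 0 < ℓ - t0 := by linarith
      have hσ0 : 0 ≤ σ := div_nonneg (by nlinarith) hden.le
      have hσ1 : σ ≤ 1 - δ / 2 := by
        rw [hσ, div_le_iff₀ hden]
        nlinarith
      have h4 : (1 - σ) * (δ / 8 * Λ j) + σ * ((1 + δ / 8) * Λ j) =
          (δ / 8 + σ) * Λ j := by ring
      rw [h4]
      have : δ / 8 + σ ≤ 1 - δ / 8 := by linarith
      gcongr
    obtain ⟨x, hx, hxl⟩ := hlarge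
    intro w hw
    by_contra hcon
    rw [abs_le] at hw
    have hwp : 0 < Real.log ‖w‖ := by nlinarith [hw.1]
    have hw0 : w ≠ 0 := by
      rintro rfl
      rw [norm_zero, Real.log_zero] at hwp
      exact lt_irrefl _ hwp
    have hwn : 0 < ‖w‖ := norm_pos_iff.2 hw0
    have h3 := hB (fun y => f^[j] y / w) ((h.df.iterate j).differentiableOn.div_const _)
      (fun y hy h0 => by
        rw [div_eq_zero_iff] at h0
        rcases h0 with h0 | h0
        · have := hfar j y hy
          rw [h0, norm_zero] at this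
          linarith
        · exact hw0 h0)
      (fun y hy h0 => by
        rw [div_eq_one_iff_eq hw0] at h0
        apply hcon
        rw [← h0]
        exact h.mpn s j hy)
      xi (Or.inl rfl) x (Or.inr (by rw [mem_sphere_zero_iff_norm, hx])) (by
        simp only [norm_div]
        rw [div_le_one hwn]
        refine hin.trans ?_
        rw [← Real.le_log_iff_exp_le hwn]
        linarith [hw.1])
    simp only [norm_div] at h3
    rw [div_le_iff₀ hwn] at h3
    have h4 : Real.exp ((1 + δ / 4) * Λ j) < max B 1 * ‖w‖ :=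
      lt_of_lt_of_le (lt_of_lt_of_le hxl h3) (by gcongr; exact le_max_left _ _)
    have hm : 0 < max B 1 := lt_of_lt_of_le one_pos (le_max_right _ _)
    rw [← Real.lt_log_iff_exp_lt (by positivity), Real.log_mul hm.ne' hwn.ne'] at h4
    nlinarith [hw.2]
  obtain ⟨j1, hj1⟩ := eventually_atTop.1 hall
  refine ⟨s + j1, f^[j1] ζ, δ / 32, h.mpn s j1 hζW, by positivity, by linarith, ?_, ?_, ?_⟩
  · intro j w hw
    have h1 := hj1 (j + j1) (by omega) w (by
      simp only [hΛ]
      rw [Function.iterate_add_apply]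
      refine hw.trans (le_of_eq ?_)
      ring)
    rwa [show s + (j + j1) = s + j1 + j by ring] at h1
  · exact fun n hn => hbig n (by omega)
  · intro A
    have := (tendsto_add_atTop_nat j1).eventually (hratio A)
    filter_upwards [this] with j hj
    simp only [hΛ] at hj
    rw [show j + j1 + 1 = (j + 1) + j1 by ring, Function.iterate_add_apply,
      Function.iterate_add_apply] at hj
    exact hj

end Core

end Pool.Agent.R237.BW
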