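import Mathlib
import Pool.Agent.W723.MC.Topo

/-!
Multiplicative perturbations of a map between domains which contain fat annuli.
-/

set_option autoImplicit false

open Filter Topology Metric Set

namespace Pool.Agent.R237.BW

/-- The points `z` and `w` of `U` are at Harnack distance at most `c`. -/
def HD (U : Set ℂ) (z w : ℂ) (c : ℝ) : Prop :=
  ∀ G : ℂ → ℂ, DifferentiableOn ℂ G U → (∀ x ∈ U, 1 < ‖G x‖) →
    Real.log ‖G z‖ ≤ Real.exp c * Real.log ‖G w‖ ∧ Real.log ‖G w‖ ≤ Real.exp c * Real.log ‖G z‖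

theorem HD.trans {U : Set ℂ} {x y z : ℂ} {a b : ℝ} (h1 : HD U x y a) (h2 : HD U y z b) :
    HD U x z (a + b) := by
  intro G hG hG1
  obtain ⟨a1, a2⟩ := h1 G hG hG1
  obtain ⟨b1, b2⟩ := h2 G hG hG1
  have ea := Real.exp_pos a
  have eb := Real.exp_pos b
  rw [Real.exp_add]
  constructor
  · calc _ ≤ _ := a1
      _ ≤ Real.exp a * (Real.exp b * Real.log ‖G z‖) := by gcongr
      _ = _ := by ring
  · calc _ ≤ _ := b2
      _ ≤ Real.exp b * (Real.exp a * Real.log ‖G x‖) := by gcongr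
      _ = _ := by ring

theorem HD.refl {U : Set ℂ} (x : ℂ) : HD U x x 0 := by
  intro G _ _
  simp

theorem HD.mono {U : Set ℂ} {x y : ℂ} {a b : ℝ} (h : HD U x y a) (hx : x ∈ U) (hy : y ∈ U)
    (hab : a ≤ b) : HD U x y b := by
  intro G hG hG1
  obtain ⟨a1, a2⟩ := h G hG hG1
  have h1 := Real.log_pos (hG1 x hx)
  have h2 := Real.log_pos (hG1 y hy)
  have h3 := Real.exp_le_exp.2 hab
  constructor
  · exact a1.trans (by gcongr)
  · exact a2.trans (by gcongr)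

theorem HD.map {U V : Set ℂ} {x y : ℂ} {a : ℝ} (h : HD U x y a) {f : ℂ → ℂ}
    (hf : Differentiable ℂ f) (hUV : MapsTo f U V) : HD V (f x) (f y) a := by
  intro G hG hG1
  exact h (G ∘ f) (hG.comp hf.differentiableOn hUV) (fun x hx => hG1 _ (hUV hx))

theorem HD.log {U : Set ℂ} {x y : ℂ} {a : ℝ} (h : HD U x y a) (hU : ∀ x ∈ U, 1 < ‖x‖)
    (hy : y ∈ U) (ha : 0 ≤ a) (ha1 : a ≤ 1) :
    |Real.log ‖x‖ - Real.log ‖y‖| ≤ 2 * a * Real.log ‖y‖ := by
  obtain ⟨h1, h2⟩ := h id differentiableOn_id hU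
  simp only [id] at h1 h2
  have hyp := Real.log_pos (hU y hy)
  have e1 : Real.exp a ≤ 1 + 2 * a := by
    have h3 : Real.exp a ≤ 1 + a + a ^ 2 := by
      have := Real.abs_exp_sub_one_sub_id_le (x := a) (by rw [abs_of_nonneg ha]; exact ha1)
      rw [abs_le] at this
      linarith [this.2]
    nlinarith
  have e2 : 1 - a ≤ Real.exp (-a) := by
    have := Real.add_one_le_exp (-a)
    linarith
  have h4 : Real.exp (-a) * Real.log ‖y‖ ≤ Real.log ‖x‖ := by
    have := mul_le_mul_of_nonneg_left h2 (Real.exp_pos (-a)).le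
    rwa [← mul_assoc, ← Real.exp_add, neg_add_cancel, Real.exp_zero, one_mul] at this
  rw [abs_le]
  constructor
  · nlinarith
  · nlinarith

theorem HD_ann {U : Set ℂ} {κ Λ ρ : ℝ} (hκ : 0 < κ) (hΛ : 0 < Λ)
    (hU : ∀ w : ℂ, |Real.log ‖w‖ - Λ| ≤ 4 * κ * Λ → w ∈ U) {a b : ℂ}
    (ha : |a.re - Λ| ≤ 2 * κ * Λ) (hb : |b.re - Λ| ≤ 2 * κ * Λ) (hρ0 : 0 ≤ ρ) (hρ : ρ ≤ κ * Λ)
    (hab : dist a b ≤ ρ) : HD U (Complex.exp a) (Complex.exp b) (2 * ρ / (κ * Λ)) := by
  have hr : 0 < 2 * κ * Λ := by positivity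
  have key : ∀ a b : ℂ, |a.re - Λ| ≤ 2 * κ * Λ → dist b a ≤ ρ → ∀ G : ℂ → ℂ,
      DifferentiableOn ℂ G U → (∀ x ∈ U, 1 < ‖G x‖) →
      Real.log ‖G (Complex.exp b)‖ ≤ Real.exp (2 * ρ / (κ * Λ)) * Real.log ‖G (Complex.exp a)‖ := by
    intro a b ha hab G hG hG1
    have hmem : MapsTo Complex.exp (ball a (2 * κ * Λ)) U := by
      intro x hx
      apply hU
      rw [Complex.norm_exp, Real.log_exp]
      rw [mem_ball, dist_eq_norm] at hx
      have h1 := Complex.abs_re_le_norm (x - a)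
      rw [Complex.sub_re] at h1
      have h2 := abs_sub_le x.re a.re Λ
      linarith
    have hH := Pool.Agent.W723.MC.harnack_half (g := fun x => G (Complex.exp x)) hr
      (hG.comp Complex.differentiable_exp.differentiableOn hmem) (fun x hx => hG1 _ (hmem hx))
      (z := b) (t := ρ / (2 * κ * Λ)) (by positivity)
      (by rw [div_mul_cancel₀ _ hr.ne']; exact hab)
      (by rw [div_lt_one hr]; linarith)
    refine hH.trans ?_
    have h0 : 0 < Real.log ‖G (Complex.exp a)‖ := by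
      apply Real.log_pos
      apply hG1
      exact hmem (mem_ball_self hr)
    have ht : ρ / (2 * κ * Λ) ≤ 1 / 2 := by rw [div_le_iff₀ hr]; linarith
    have ht0 : 0 ≤ ρ / (2 * κ * Λ) := by positivity
    have h1 : 1 + 2 * (ρ / (2 * κ * Λ)) / (1 - ρ / (2 * κ * Λ)) ≤ Real.exp (2 * ρ / (κ * Λ)) := by
      have h2 : 2 * (ρ / (2 * κ * Λ)) / (1 - ρ / (2 * κ * Λ)) ≤ 2 * ρ / (κ * Λ) := by
        have h3 : 2 * ρ / (κ * Λ) = 4 * (ρ / (2 * κ * Λ)) := by field_simp; ring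
        rw [h3, div_le_iff₀ (by linarith)]
        nlinarith
      have := Real.add_one_le_exp (2 * ρ / (κ * Λ))
      linarith
    gcongr
  intro G hG hG1
  exact ⟨key b a hb hab G hG hG1, key a b ha (by rwa [dist_comm]) G hG hG1⟩

/-- a sequence of domains containing fat annuli around an orbit -/
structure Annu (f : ℂ → ℂ) (W : ℕ → Set ℂ) (ζ : ℂ) (κ : ℝ) : Prop where
  df : Differentiable ℂ f
  mp : ∀ n, MapsTo f (W n) (W (n + 1))
  ζm : ζ ∈ W 0
  κ0 : 0 < κ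
  κ1 : κ ≤ 1 / 64
  ann : ∀ j : ℕ, ∀ w : ℂ, |Real.log ‖w‖ - Real.log ‖f^[j] ζ‖| ≤ 4 * κ * Real.log ‖f^[j] ζ‖ → w ∈ W j
  big : ∀ n, ∀ z ∈ W n, 2 < ‖z‖
  ratio : ∀ A : ℝ, ∀ᶠ j in atTop, A * Real.log ‖f^[j] ζ‖ ≤ Real.log ‖f^[j + 1] ζ‖

namespace Annu

variable {f : ℂ → ℂ} {W : ℕ → Set ℂ} {ζ : ℂ} {κ : ℝ}

theorem ζn (h : Annu f W ζ κ) (n : ℕ) : f^[n] ζ ∈ W n := by
  induction n with
  | zero => exact h.ζm
  | succ n ih => rw [Function.iterate_succ_apply']; exact h.mp n ih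

theorem pos (h : Annu f W ζ κ) (n : ℕ) : 0 < Real.log ‖f^[n] ζ‖ :=
  Real.log_pos (by have := h.big n _ (h.ζn n); linarith)

theorem dbl (h : Annu f W ζ κ) : ∃ N : ℕ, ∀ n ≥ N, ∀ k : ℕ,
    2 ^ k * Real.log ‖f^[n] ζ‖ ≤ Real.log ‖f^[n + k] ζ‖ := by
  obtain ⟨N, hN⟩ := eventually_atTop.1 (h.ratio 2)
  refine ⟨N, fun n hn k => ?_⟩
  induction k with
  | zero => simp
  | succ k ih =>
    have := hN (n + k) (by omega)
    rw [← add_assoc]
    rw [pow_succ]
    linarith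

theorem top (h : Annu f W ζ κ) : Tendsto (fun n => Real.log ‖f^[n] ζ‖) atTop atTop := by
  obtain ⟨N, hN⟩ := h.dbl
  have h1 : Tendsto (fun k : ℕ => (2 : ℝ) ^ k * Real.log ‖f^[N] ζ‖) atTop atTop :=
    (tendsto_pow_atTop_atTop_of_one_lt one_lt_two).atTop_mul_const (h.pos N)
  have h2 := tendsto_atTop_mono (fun k => hN N le_rfl k) h1
  rw [← tendsto_add_atTop_iff_nat N]
  refine h2.congr fun k => ?_
  rw [add_comm]

/-- perturbed orbits -/
theorem pert (h : Annu f W ζ κ) {F : ℂ → ℂ} {C : ℝ} (hC : 1 ≤ C)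
    (hF : ∀ᶠ n in atTop, ∀ z ∈ W n, ∃ γ : ℂ, F z = f z * γ ∧ C⁻¹ ≤ ‖γ‖ ∧ ‖γ‖ ≤ C) :
    ∃ J : ℕ, ∃ κ' : ℝ, 0 < κ' ∧ κ' ≤ κ ∧
      (∀ n ≥ J, ∀ w : ℂ, |Real.log ‖w‖ - Real.log ‖f^[n] ζ‖| ≤ κ' * Real.log ‖f^[n] ζ‖ → ∀ i : ℕ,
        F^[i] w ∈ W (n + i) ∧
        |Real.log ‖F^[i] w‖ - Real.log ‖f^[n + i] ζ‖| ≤ κ * Real.log ‖f^[n + i] ζ‖) ∧
      (∀ n ≥ J, ∀ i : ℕ, |Real.log ‖F^[i] (f^[n] ζ)‖ - Real.log ‖f^[n + i] ζ‖| ≤
        κ' / 2 * Real.log ‖f^[n + i] ζ‖) := by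
  obtain ⟨N1, hN1⟩ := eventually_atTop.1 hF
  obtain ⟨N2, hN2⟩ := h.dbl
  have hκ := h.κ0
  have hκ1 := h.κ1
  have hπ := Real.pi_pos
  set ρ : ℝ := Real.log C + Real.pi with hρ
  have hlC : 0 ≤ Real.log C := Real.log_nonneg hC
  have hρ0 : 0 < ρ := by linarith
  obtain ⟨N3, hN3⟩ := eventually_atTop.1 (h.top.eventually_ge_atTop
    (64 * (2 * ρ + 4 * Real.pi) / κ ^ 3))
  set Λ : ℕ → ℝ := fun n => Real.log ‖f^[n] ζ‖ with hΛ
  have hΛ0 : ∀ n, 0 < Λ n := h.pos
  -- the general induction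
  have gen : ∀ n ≥ max N1 (max N2 N3), ∀ w : ℂ, ∀ c0 : ℝ, 0 ≤ c0 → w ∈ W n →
      HD (W n) w (f^[n] ζ) c0 → c0 + κ ^ 2 / 64 ≤ κ / 2 → ∀ i : ℕ,
      F^[i] w ∈ W (n + i) ∧
        HD (W (n + i)) (F^[i] w) (f^[n + i] ζ) (c0 + κ ^ 2 / 64 * (1 - (1 / 2) ^ i)) := by
    intro n hn w c0 hc0 hwW hHD hc i
    have hn1 : N1 ≤ n := le_trans (le_max_left _ _) hn
    have hn2 : N2 ≤ n := le_trans ((le_max_left _ _).trans (le_max_right _ _)) hn
    have hn3 : N3 ≤ n := le_trans ((le_max_right _ _).trans (le_max_right _ _)) hn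
    have hΛn := hN3 n hn3
    change 64 * (2 * ρ + 4 * Real.pi) / κ ^ 3 ≤ Λ n at hΛn
    rw [div_le_iff₀ (by positivity)] at hΛn
    induction i with
    | zero => exact ⟨hwW, by simpa using hHD⟩
    | succ i ih =>
      obtain ⟨ih1, ih2⟩ := ih
      have hS0 : 0 ≤ c0 + κ ^ 2 / 64 * (1 - (1 / 2) ^ i) := by
        have : (1 / 2 : ℝ) ^ i ≤ 1 := pow_le_one₀ (by norm_num) (by norm_num)
        have : 0 ≤ κ ^ 2 / 64 * (1 - (1 / 2) ^ i) := by
          apply mul_nonneg (by positivity)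
          linarith
        linarith
      have hS1 : c0 + κ ^ 2 / 64 * (1 - (1 / 2) ^ i) ≤ κ / 2 := by
        have : (0 : ℝ) ≤ (1 / 2) ^ i := by positivity
        have : κ ^ 2 / 64 * (1 - (1 / 2) ^ i) ≤ κ ^ 2 / 64 := by
          have h2 : 0 < κ ^ 2 / 64 := by positivity
          nlinarith
        linarith
      set x := F^[i] w with hx
      have hfx : f x ∈ W (n + i + 1) := h.mp _ ih1
      have hζ' : f^[n + i + 1] ζ ∈ W (n + i + 1) := h.ζn _
      have hmap := ih2.map h.df (h.mp (n + i))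
      rw [← Function.iterate_succ_apply' f (n + i) ζ] at hmap
      have hlog := hmap.log (fun x hx => by have := h.big _ x hx; linarith) hζ' hS0 (by linarith)
      obtain ⟨γ, hγ, hγ1, hγ2⟩ := hN1 (n + i) (by omega) x ih1
      have hγp : 0 < ‖γ‖ := lt_of_lt_of_le (by positivity) hγ1
      have hγ0 : γ ≠ 0 := norm_pos_iff.1 hγp
      have hfx0 : f x ≠ 0 := by
        intro h0
        have := h.big _ _ hfx
        rw [h0, norm_zero] at this
        linarith
      set Λ1 := Λ (n + i + 1) with hΛ1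
      have hΛ1p : 0 < Λ1 := hΛ0 _
      have hΛ12 : 2 ^ (i + 1) * Λ n ≤ Λ1 := hN2 n hn2 (i + 1)
      have hΛ1n : Λ n ≤ Λ1 := by
        have h1 : (1 : ℝ) ≤ 2 ^ (i + 1) := one_le_pow₀ (by norm_num)
        nlinarith [hΛ0 n]
      have hρΛ : ρ ≤ κ * Λ1 := by
        have h3 : κ ^ 3 ≤ κ := by
          have : κ ^ 2 ≤ 1 := by nlinarith
          nlinarith
        have h4 : Λ n * κ ^ 3 ≤ Λ1 * κ := by
          have := hΛ0 n
          gcongr
        nlinarith
      have hlγ : |Real.log ‖γ‖| ≤ Real.log C := by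
        rw [abs_le]
        constructor
        · have := Real.log_le_log (by positivity) hγ1
          rwa [Real.log_inv] at this
        · exact Real.log_le_log hγp hγ2
      have hre1 : |(Complex.log (f x)).re - Λ1| ≤ κ * Λ1 := by
        rw [Complex.log_re]
        refine hlog.trans ?_
        have : 2 * (c0 + κ ^ 2 / 64 * (1 - (1 / 2) ^ i)) ≤ κ := by linarith
        exact mul_le_mul_of_nonneg_right this hΛ1p.le
      have hHD2 := HD_ann (U := W (n + i + 1)) (κ := κ) (Λ := Λ1) (ρ := ρ) hκ hΛ1p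
        (h.ann (n + i + 1)) (a := Complex.log (f x) + Complex.log γ) (b := Complex.log (f x))
        (by
          rw [Complex.add_re, Complex.log_re γ]
          have h5 := abs_add_le ((Complex.log (f x)).re - Λ1) (Real.log ‖γ‖)
          have h6 : (Complex.log (f x)).re + Real.log ‖γ‖ - Λ1 =
            ((Complex.log (f x)).re - Λ1) + Real.log ‖γ‖ := by ring
          rw [h6]
          have h7 : Real.log C ≤ κ * Λ1 := by linarith
          linarith)
        (by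
          have : κ * Λ1 ≤ 2 * κ * Λ1 := by nlinarith
          exact hre1.trans this) hρ0.le hρΛ
        (by
          rw [dist_eq_norm, add_sub_cancel_left]
          have h5 := Complex.norm_le_abs_re_add_abs_im (Complex.log γ)
          rw [Complex.log_re, Complex.log_im] at h5
          have h6 := Complex.abs_arg_le_pi γ
          linarith)
      rw [Complex.exp_add, Complex.exp_log hfx0, Complex.exp_log hγ0, ← hγ] at hHD2
      have hxs : F^[i + 1] w = F x := by rw [Function.iterate_succ_apply']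
      have htr := hHD2.trans hmap
      have hc2 : 2 * ρ / (κ * Λ1) ≤ κ ^ 2 / 64 * (1 / 2) ^ (i + 1) := by
        rw [div_le_iff₀ (by positivity)]
        have e1 : (1 / 2 : ℝ) ^ (i + 1) * (2 ^ (i + 1)) = 1 := by
          rw [← mul_pow]; norm_num
        have e2 : 0 < (1 / 2 : ℝ) ^ (i + 1) := by positivity
        calc 2 * ρ ≤ κ ^ 3 / 64 * Λ n := by linarith
          _ = κ ^ 3 / 64 * ((1 / 2 : ℝ) ^ (i + 1) * (2 ^ (i + 1))) * Λ n := by rw [e1]; ring
          _ = κ ^ 3 / 64 * (1 / 2 : ℝ) ^ (i + 1) * ((2 ^ (i + 1)) * Λ n) := by ring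
          _ ≤ κ ^ 3 / 64 * (1 / 2 : ℝ) ^ (i + 1) * Λ1 := by gcongr
          _ = _ := by ring
      -- membership
      have hlog2 : |Real.log ‖F x‖ - Λ1| ≤ 4 * κ * Λ1 := by
        rw [hγ, norm_mul, Real.log_mul (norm_ne_zero_iff.2 hfx0) hγp.ne']
        rw [Complex.log_re] at hre1
        have h5 := abs_add_le (Real.log ‖f x‖ - Λ1) (Real.log ‖γ‖)
        have h6 : Real.log ‖f x‖ + Real.log ‖γ‖ - Λ1 =
          (Real.log ‖f x‖ - Λ1) + Real.log ‖γ‖ := by ring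
        rw [h6]
        nlinarith
      have hFx : F x ∈ W (n + i + 1) := h.ann _ _ hlog2
      rw [hxs]
      refine ⟨hFx, htr.mono hFx hζ' ?_⟩
      have e3 : (1 - (1 / 2 : ℝ) ^ (i + 1)) = (1 - (1 / 2) ^ i) + (1 / 2) ^ (i + 1) := by
        rw [pow_succ]; ring
      rw [e3]
      linarith
  refine ⟨max N1 (max N2 N3), κ ^ 2 / 16, by positivity, by nlinarith, ?_, ?_⟩
  · intro n hn w hw i
    have hn3 : N3 ≤ n := le_trans ((le_max_right _ _).trans (le_max_right _ _)) hn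
    have hΛn := hN3 n hn3
    change 64 * (2 * ρ + 4 * Real.pi) / κ ^ 3 ≤ Λ n at hΛn
    rw [div_le_iff₀ (by positivity)] at hΛn
    change |Real.log ‖w‖ - Λ n| ≤ κ ^ 2 / 16 * Λ n at hw
    have hΛnp := hΛ0 n
    have hκ2 : κ ^ 2 ≤ κ / 64 := by nlinarith
    have hκ3 : κ ^ 3 ≤ κ ^ 2 := by nlinarith
    have hwW : w ∈ W n := h.ann n w (hw.trans (by
      change κ ^ 2 / 16 * Λ n ≤ 4 * κ * Λ n
      gcongr
      linarith))
    have hw0 : w ≠ 0 := by
      rintro rfl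
      have := h.big n _ hwW
      rw [norm_zero] at this
      linarith
    have hζ0 : f^[n] ζ ≠ 0 := by
      intro h0
      have := h.big n _ (h.ζn n)
      rw [h0, norm_zero] at this
      linarith
    have hpb : 4 * Real.pi ≤ κ ^ 3 / 64 * Λ n := by linarith
    have hsmall : κ ^ 2 / 16 * Λ n + 2 * Real.pi ≤ κ * Λ n := by
      have h1 : κ ^ 2 / 16 * Λ n ≤ κ / 64 / 16 * Λ n := by gcongr
      have h2 : κ ^ 3 / 64 * Λ n ≤ κ / 64 / 64 * Λ n := by gcongr; linarith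
      nlinarith
    have hHD := HD_ann (U := W n) (κ := κ) (Λ := Λ n) (ρ := κ ^ 2 / 16 * Λ n + 2 * Real.pi) hκ hΛnp
      (h.ann n) (a := Complex.log w) (b := Complex.log (f^[n] ζ))
      (by
        rw [Complex.log_re]
        refine hw.trans ?_
        gcongr
        linarith)
      (by
        rw [Complex.log_re]
        change |Λ n - Λ n| ≤ _
        rw [sub_self, abs_zero]
        positivity) (by positivity) hsmall
      (by
        rw [dist_eq_norm]
        refine (Complex.norm_le_abs_re_add_abs_im _).trans ?_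
        rw [Complex.sub_re, Complex.sub_im, Complex.log_re, Complex.log_re, Complex.log_im,
          Complex.log_im]
        have h5 := Complex.abs_arg_le_pi w
        have h6 := Complex.abs_arg_le_pi (f^[n] ζ)
        have h7 := abs_sub (Complex.arg w) (Complex.arg (f^[n] ζ))
        change |Real.log ‖w‖ - Λ n| + _ ≤ _
        linarith)
    rw [Complex.exp_log hw0, Complex.exp_log hζ0] at hHD
    have hc0 : 2 * (κ ^ 2 / 16 * Λ n + 2 * Real.pi) / (κ * Λ n) + κ ^ 2 / 64 ≤ κ / 2 := by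
      have h8 : 2 * (κ ^ 2 / 16 * Λ n + 2 * Real.pi) / (κ * Λ n) ≤ κ / 8 + κ / 16 := by
        rw [div_le_iff₀ (by positivity)]
        have h9 : κ ^ 3 / 64 * Λ n ≤ κ ^ 2 / 64 * Λ n := by gcongr
        nlinarith
      nlinarith
    obtain ⟨g1, g2⟩ := gen n hn w _ (by positivity) hwW hHD hc0 i
    refine ⟨g1, ?_⟩
    have hle : 2 * (κ ^ 2 / 16 * Λ n + 2 * Real.pi) / (κ * Λ n) + κ ^ 2 / 64 * (1 - (1 / 2) ^ i) ≤
        κ / 2 := by
      have : (0 : ℝ) ≤ (1 / 2) ^ i := by positivity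
      have h2 : 0 < κ ^ 2 / 64 := by positivity
      nlinarith
    have hge : 0 ≤ 2 * (κ ^ 2 / 16 * Λ n + 2 * Real.pi) / (κ * Λ n) +
        κ ^ 2 / 64 * (1 - (1 / 2) ^ i) := by
      have : (1 / 2 : ℝ) ^ i ≤ 1 := pow_le_one₀ (by norm_num) (by norm_num)
      have h2 : 0 ≤ κ ^ 2 / 64 * (1 - (1 / 2) ^ i) := mul_nonneg (by positivity) (by linarith)
      positivity
    have h10 := g2.log (fun x hx => by have := h.big _ x hx; linarith) (h.ζn (n + i)) hge
      (by linarith)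
    refine h10.trans ?_
    apply mul_le_mul_of_nonneg_right _ (hΛ0 (n + i)).le
    linarith
  · intro n hn i
    obtain ⟨g1, g2⟩ := gen n hn (f^[n] ζ) 0 le_rfl (h.ζn n) (HD.refl _) (by nlinarith) i
    rw [zero_add] at g2
    have h2 : 0 < κ ^ 2 / 64 := by positivity
    have hge : 0 ≤ κ ^ 2 / 64 * (1 - (1 / 2) ^ i) := by
      have : (1 / 2 : ℝ) ^ i ≤ 1 := pow_le_one₀ (by norm_num) (by norm_num)
      exact mul_nonneg (by positivity) (by linarith)
    have hle : κ ^ 2 / 64 * (1 - (1 / 2) ^ i) ≤ κ ^ 2 / 64 := by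
      have : (0 : ℝ) ≤ (1 / 2) ^ i := by positivity
      nlinarith
    have h10 := g2.log (fun x hx => by have := h.big _ x hx; linarith) (h.ζn (n + i)) hge
      (by nlinarith)
    refine h10.trans ?_
    apply mul_le_mul_of_nonneg_right _ (hΛ0 (n + i)).le
    linarith

end Annu

end Pool.Agent.R237.BW
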