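import Mathlib
import Pool.Agent.Helper300.JonesT

/-!
Sets surrounding the origin.
-/

set_option autoImplicit false

open Filter Topology Metric Set
open scoped OnePoint

namespace Pool.Agent.R237.BW

/-- `A` surrounds `0`: the origin is not in `A`, and the component of the complement of `A` in the
Riemann sphere which contains the origin is a bounded subset of the plane. -/
def Surrounds0 (A : Set ℂ) : Prop :=
  (0 : ℂ) ∉ A ∧ ∃ B : Set ℂ, Bornology.IsBounded B ∧
    connectedComponentIn ((fun z : ℂ => (z : OnePoint ℂ)) '' A)ᶜ ((0 : ℂ) : OnePoint ℂ) =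
      (fun z : ℂ => (z : OnePoint ℂ)) '' B

/-- `A` is multiply connected: its complement in the Riemann sphere is disconnected. -/
def MultiplyConnected (A : Set ℂ) : Prop :=
  ¬ IsPreconnected ((fun z : ℂ => (z : OnePoint ℂ)) '' A)ᶜ

theorem exists_O {A : Set ℂ} (hA : IsOpen A) (h : Surrounds0 A) :
    ∃ O : Set ℂ, IsOpen O ∧ Bornology.IsBounded O ∧ (0 : ℂ) ∈ O ∧ frontier O ⊆ A := by
  obtain ⟨h0, B, hB, hcomp⟩ := h
  set T : Set (OnePoint ℂ) := ((fun z : ℂ => (z : OnePoint ℂ)) '' A)ᶜ with hT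
  have hTc : IsClosed T := (OnePoint.isOpenEmbedding_coe.isOpenMap A hA).isClosed_compl
  have h0T : ((0 : ℂ) : OnePoint ℂ) ∈ T := by
    rintro ⟨w, hw, hw2⟩
    have : w = 0 := OnePoint.coe_injective hw2
    exact h0 (this ▸ hw)
  obtain ⟨P, Q, hP, hQ, hPQ, hPQu, h0P, hPU⟩ := Pool.Agent.Helper300.JonesT.exists_clopen hTc h0T
    (U := {∞}ᶜ) isClosed_singleton.isOpen_compl (by
      rw [hcomp]
      rintro _ ⟨b, _, rfl⟩ hb
      exact OnePoint.coe_ne_infty b hb)
  set Z : Set ℂ := (fun z : ℂ => (z : OnePoint ℂ)) ⁻¹' P with hZ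
  set Y : Set ℂ := (fun z : ℂ => (z : OnePoint ℂ)) ⁻¹' Q with hY
  have hPr : P ⊆ range (fun z : ℂ => (z : OnePoint ℂ)) := by
    intro x hx
    have h1 : x ≠ ∞ := hPU hx
    obtain ⟨c, hc⟩ := OnePoint.ne_infty_iff_exists.1 h1
    exact ⟨c, hc⟩
  have hZc : IsCompact Z :=
    (OnePoint.isOpenEmbedding_coe.isInducing.isCompact_preimage_iff hPr).2 hP.isCompact
  have hYc : IsClosed Y := hQ.preimage OnePoint.continuous_coe
  have hZY : Z ⊆ Yᶜ := by
    intro z hz hzY
    exact hPQ.le_bot ⟨hz, hzY⟩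
  obtain ⟨O, hO, hZO, hcl, hcc⟩ := exists_open_between_and_isCompact_closure hZc
    hYc.isOpen_compl hZY
  refine ⟨O, hO, hcc.isBounded.subset subset_closure, hZO h0P, ?_⟩
  rintro x ⟨hx1, hx2⟩
  rw [hO.interior_eq] at hx2
  by_contra hxA
  have hxT : (x : OnePoint ℂ) ∈ T := by
    rintro ⟨w, hw, hw2⟩
    have : w = x := OnePoint.coe_injective hw2
    exact hxA (this ▸ hw)
  rw [← hPQu] at hxT
  rcases hxT with h1 | h1
  · exact hx2 (hZO h1)
  · exact hcl hx1 h1

theorem surrounds_of {A : Set ℂ} (h0 : (0 : ℂ) ∉ A) {r : ℝ} (hr : 0 < r)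
    (hA : sphere (0 : ℂ) r ⊆ A) : Surrounds0 A ∧ MultiplyConnected A := by
  set T : Set (OnePoint ℂ) := ((fun z : ℂ => (z : OnePoint ℂ)) '' A)ᶜ with hT
  have h0T : ((0 : ℂ) : OnePoint ℂ) ∈ T := by
    rintro ⟨w, hw, hw2⟩
    have : w = 0 := OnePoint.coe_injective hw2
    exact h0 (this ▸ hw)
  set I : Set (OnePoint ℂ) := (fun z : ℂ => (z : OnePoint ℂ)) '' ball 0 r with hI
  set E : Set (OnePoint ℂ) := ((fun z : ℂ => (z : OnePoint ℂ)) '' closedBall 0 r)ᶜ with hE
  have hIo : IsOpen I := OnePoint.isOpenEmbedding_coe.isOpenMap _ isOpen_ball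
  have hEo : IsOpen E :=
    ((isCompact_closedBall (0 : ℂ) r).image OnePoint.continuous_coe).isClosed.isOpen_compl
  have hIE : I ∩ E = ∅ := by
    rw [← disjoint_iff_inter_eq_empty, disjoint_left]
    rintro _ ⟨w, hw, rfl⟩ hw2
    exact hw2 ⟨w, ball_subset_closedBall hw, rfl⟩
  have hcov : T ⊆ I ∪ E := by
    intro x hx
    induction x using OnePoint.rec with
    | infty => right; rintro ⟨w, _, hw⟩; exact OnePoint.coe_ne_infty w hw
    | coe z =>
      rcases lt_trichotomy ‖z‖ r with h | h | h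
      · left; exact ⟨z, by simpa using h, rfl⟩
      · exact absurd ⟨z, hA (by simpa using h), rfl⟩ hx
      · right
        rintro ⟨w, hw, hw2⟩
        have : w = z := OnePoint.coe_injective hw2
        rw [this, mem_closedBall_zero_iff] at hw
        linarith
  have h0I : ((0 : ℂ) : OnePoint ℂ) ∈ I := ⟨0, mem_ball_self hr, rfl⟩
  have hkey : ∀ S : Set (OnePoint ℂ), IsPreconnected S → S ⊆ T → ((0 : ℂ) : OnePoint ℂ) ∈ S →
      S ⊆ I := by
    intro S hS hST h0S x hx
    rcases hcov (hST hx) with h | h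
    · exact h
    · exfalso
      obtain ⟨y, _, hy⟩ := hS I E hIo hEo (hST.trans hcov) ⟨_, h0S, h0I⟩ ⟨x, hx, h⟩
      rw [hIE] at hy
      exact hy
  refine ⟨⟨h0, (fun z : ℂ => (z : OnePoint ℂ)) ⁻¹' (connectedComponentIn T ((0 : ℂ) : OnePoint ℂ)),
    ?_, ?_⟩, ?_⟩
  · apply isBounded_ball.subset (t := ball (0 : ℂ) r)
    intro z hz
    obtain ⟨w, hw, hw2⟩ := hkey _ isPreconnected_connectedComponentIn
      (connectedComponentIn_subset _ _) (mem_connectedComponentIn h0T) hz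
    have : w = z := OnePoint.coe_injective hw2
    exact this ▸ hw
  · rw [image_preimage_eq_of_subset]
    intro x hx
    obtain ⟨w, _, hw2⟩ := hkey _ isPreconnected_connectedComponentIn
      (connectedComponentIn_subset _ _) (mem_connectedComponentIn h0T) hx
    exact ⟨w, hw2⟩
  · intro hpre
    have hinf : (∞ : OnePoint ℂ) ∈ T := by
      rintro ⟨w, _, hw⟩
      exact OnePoint.coe_ne_infty w hw
    obtain ⟨w, _, hw⟩ := hkey T hpre Subset.rfl h0T hinf
    exact OnePoint.coe_ne_infty w hw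

end Pool.Agent.R237.BW
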